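import Pool.Agent.N928.FG.Stm

set_option autoImplicit false
set_option maxHeartbeats 1000000

/-! FG/ABL (helper453): abelian lower bound. -/

open Filter Topology

namespace Pool.Agent.N453.FG

open Pool.Agent.N928.FG

/-- **FG/ABL** -/
theorem t_ABL : S_ABL := by
  intro q R c d hq hR hc hd hev hsum
  obtain ⟨n₀, hn₀⟩ := eventually_atTop.1 hev
  set n₁ : ℕ := n₀ + 1 with hn₁
  have hn₁0 : (0 : ℝ) < n₁ := by rw [hn₁]; positivity
  have hn₁1 : (1 : ℝ) ≤ n₁ := by rw [hn₁]; push_cast; linarith [(Nat.cast_nonneg n₀ : (0 : ℝ) ≤ n₀)]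
  refine ⟨c / (16 * √R), by positivity, R * (1 - 1 / (2 * n₁)), ?_, ?_, ?_⟩
  · apply mul_pos hR
    have : 1 / (2 * (n₁ : ℝ)) ≤ 1 / 2 := by
      apply one_div_le_one_div_of_le <;> linarith
    linarith
  · have : 0 < 1 / (2 * (n₁ : ℝ)) := by positivity
    nlinarith
  intro z hz0 hzR
  set η : ℝ := 1 - z / R with hη
  have hzη : z = R * (1 - η) := by rw [hη]; field_simp; ring
  have hη0 : 0 < η := by
    rw [hη, sub_pos, div_lt_one hR]; exact hzR
  have hη1 : η ≤ 1 / (2 * n₁) := by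
    have h1 : R * (1 - 1 / (2 * n₁)) ≤ R * (1 - η) := by rw [← hzη]; exact hz0
    have h2 := le_of_mul_le_mul_left h1 hR
    linarith
  have hη2 : η ≤ 1 / 2 := hη1.trans (by
    apply one_div_le_one_div_of_le <;> linarith)
  set N : ℕ := ⌈1 / η⌉₊ with hN
  have hN1 : 1 / η ≤ N := Nat.le_ceil _
  have hN2 : (N : ℝ) ≤ 2 / η := by
    have h1 : (N : ℝ) < 1 / η + 1 := Nat.ceil_lt_add_one (by positivity)
    have h2 : 1 ≤ 1 / η := by rw [le_div_iff₀ hη0]; linarith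
    have h3 : 2 / η = 1 / η + 1 / η := by ring
    rw [h3]; linarith
  have hN3 : (n₀ : ℝ) ≤ N := by
    refine le_trans ?_ hN1
    rw [le_div_iff₀ hη0]
    calc (n₀ : ℝ) * η ≤ n₁ * (1 / (2 * n₁)) := by
          gcongr
          rw [hn₁]; push_cast; linarith
      _ = 1 / 2 := by field_simp
      _ ≤ 1 := by norm_num
  have hN3' : n₀ ≤ N := by exact_mod_cast hN3
  have hN4 : 1 ≤ N := by
    have : 0 < N := Nat.ceil_pos.2 (by positivity)
    omega
  have hNpos : (0 : ℝ) < N := by exact_mod_cast hN4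
  have hNη : 1 ≤ N * η := by
    rw [div_le_iff₀ hη0] at hN1
    exact hN1
  have hNη2 : N * η ≤ 2 := by
    rw [le_div_iff₀ hη0] at hN2
    exact hN2
  set z' : ℝ := R * (1 - η / 16) with hz'
  have hzz' : z < z' := by
    rw [hzη, hz']
    apply mul_lt_mul_of_pos_left _ hR
    linarith
  have hz'R : z' < R := by
    rw [hz']
    nlinarith
  have hz00 : 0 ≤ z := by
    rw [hzη]
    apply mul_nonneg hR.le
    linarith
  have hz'0 : 0 ≤ z' := hz00.trans hzz'.le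
  refine ⟨z', hzz', hz'R, ?_⟩
  -- the terms
  have hterm : ∀ n ∈ Finset.Ico N (2 * N), c * (2 * (N : ℝ)) ^ (-(3 / 2 : ℝ)) / 4 ≤
      q (2 * n) * z' ^ (2 * n) - q (2 * n) * z ^ (2 * n) := by
    intro n hn
    rw [Finset.mem_Ico] at hn
    have hnN : (N : ℝ) ≤ n := by exact_mod_cast hn.1
    have hn2N : (n : ℝ) ≤ 2 * N := by exact_mod_cast hn.2.le
    have hnpos : (0 : ℝ) < n := hNpos.trans_le hnN
    have h1 : c * (n : ℝ) ^ (-d) ≤ q (2 * n) * R ^ (2 * n) := hn₀ n (hN3'.trans hn.1)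
    have h2 : (2 * (N : ℝ)) ^ (-(3 / 2 : ℝ)) ≤ (n : ℝ) ^ (-d) := by
      calc (2 * (N : ℝ)) ^ (-(3 / 2 : ℝ)) ≤ (n : ℝ) ^ (-(3 / 2 : ℝ)) :=
            Real.rpow_le_rpow_of_nonpos hnpos hn2N (by norm_num)
        _ ≤ (n : ℝ) ^ (-d) := by
            apply Real.rpow_le_rpow_of_exponent_le _ (by linarith)
            exact le_trans (by exact_mod_cast hN4) hnN
    have h3 : (1 - η) ^ (2 * n) ≤ 1 / 4 := by
      have e1 : 1 - η ≤ Real.exp (-η) := by
        have := Real.add_one_le_exp (-η); linarith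
      have e2 : (1 - η) ^ n ≤ 1 / 2 := by
        calc (1 - η) ^ n ≤ Real.exp (-η) ^ n := pow_le_pow_left₀ (by linarith) e1 n
          _ = Real.exp (-(n * η)) := by rw [← Real.exp_nat_mul]; ring_nf
          _ ≤ Real.exp (-1) := by
              apply Real.exp_le_exp.2
              nlinarith
          _ ≤ 1 / 2 := by
              rw [Real.exp_neg, inv_eq_one_div]
              apply one_div_le_one_div_of_le (by norm_num)
              have := Real.add_one_le_exp (1 : ℝ); linarith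
      have e3 : 0 ≤ (1 - η) ^ n := pow_nonneg (by linarith) n
      rw [mul_comm 2 n, pow_mul]
      nlinarith
    have h4 : 1 / 2 ≤ (1 - η / 16) ^ (2 * n) := by
      have e1 := one_add_mul_le_pow (show (-2 : ℝ) ≤ -(η / 16) by linarith) (2 * n)
      have e2 : (1 : ℝ) + ((2 * n : ℕ) : ℝ) * (-(η / 16)) ≥ 1 / 2 := by
        push_cast
        nlinarith
      have e3 : (1 : ℝ) + -(η / 16) = 1 - η / 16 := by ring
      rw [e3] at e1
      linarith
    have h5 : q (2 * n) * z' ^ (2 * n) - q (2 * n) * z ^ (2 * n) =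
        q (2 * n) * R ^ (2 * n) * ((1 - η / 16) ^ (2 * n) - (1 - η) ^ (2 * n)) := by
      rw [hz', hzη, mul_pow, mul_pow]; ring
    rw [h5]
    have h6 : 0 ≤ q (2 * n) * R ^ (2 * n) := mul_nonneg (hq _) (by positivity)
    have h7 : c * (2 * (N : ℝ)) ^ (-(3 / 2 : ℝ)) ≤ q (2 * n) * R ^ (2 * n) :=
      (mul_le_mul_of_nonneg_left h2 hc.le).trans h1
    calc c * (2 * (N : ℝ)) ^ (-(3 / 2 : ℝ)) / 4
        ≤ q (2 * n) * R ^ (2 * n) * (1 / 4) := by linarith
      _ ≤ _ := by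
          apply mul_le_mul_of_nonneg_left _ h6
          linarith
  have hs1 := hsum z' hz'0 hz'R
  have hs2 := hsum z hz00 hzR
  rw [← hs1.tsum_sub hs2]
  have h1 : ∑ n ∈ (Finset.Ico N (2 * N)).image (fun n => 2 * n),
      (q n * z' ^ n - q n * z ^ n) ≤ ∑' n, (q n * z' ^ n - q n * z ^ n) := by
    apply (hs1.sub hs2).sum_le_tsum
    intro n _
    have : z ^ n ≤ z' ^ n := pow_le_pow_left₀ hz00 hzz'.le n
    nlinarith [hq n]
  refine le_trans ?_ h1
  rw [Finset.sum_image (by intro a _ b _ h; simpa using h)]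
  have h2 := Finset.sum_le_sum hterm
  refine le_trans ?_ h2
  rw [Finset.sum_const, Nat.card_Ico, nsmul_eq_mul]
  have h3 : ((2 * N - N : ℕ) : ℝ) = N := by
    have : 2 * N - N = N := by omega
    rw [this]
  rw [h3]
  have h2N : (0 : ℝ) < 2 * N := by positivity
  have h4 : (N : ℝ) * (c * (2 * (N : ℝ)) ^ (-(3 / 2 : ℝ)) / 4) =
      c / 8 * ((2 * (N : ℝ)) ^ (1 / 2 : ℝ))⁻¹ := by
    have e1 : (2 * (N : ℝ)) ^ (-(3 / 2 : ℝ)) = (2 * (N : ℝ)) ^ (-(1 : ℝ)) *
        (2 * (N : ℝ)) ^ (-(1 / 2 : ℝ)) := by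
      rw [← Real.rpow_add h2N]; norm_num
    rw [e1, Real.rpow_neg_one, Real.rpow_neg h2N.le]
    field_simp
    ring
  rw [h4, ← Real.sqrt_eq_rpow]
  have h5 : √(2 * (N : ℝ)) ≤ 2 / √η := by
    rw [le_div_iff₀ (Real.sqrt_pos.2 hη0), ← Real.sqrt_mul h2N.le]
    rw [Real.sqrt_le_left (by norm_num)]
    have e1 : 2 * (N : ℝ) * η = 2 * (N * η) := by ring
    rw [e1]
    norm_num
    linarith
  have h6 : √(R - z) = √R * √η := by
    rw [← Real.sqrt_mul hR.le]
    congr 1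
    rw [hzη]; ring
  rw [h6]
  have hsR : 0 < √R := Real.sqrt_pos.2 hR
  have hsη : 0 < √η := Real.sqrt_pos.2 hη0
  have h7 : √η / 2 ≤ (√(2 * (N : ℝ)))⁻¹ := by
    rw [le_inv_comm₀ (by positivity) (Real.sqrt_pos.2 h2N)]
    rw [inv_div]
    exact h5
  calc c / (16 * √R) * (√R * √η) = c / 8 * (√η / 2) := by field_simp; ring
    _ ≤ c / 8 * (√(2 * (N : ℝ)))⁻¹ := by gcongr

end Pool.Agent.N453.FG
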